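import Pool.Agent.P8H64.GP.Rep

/-!
# Package REP of project GP: representation of a centred Gaussian law on `ℝ ^ d`
-/

set_option autoImplicit false

namespace Pool.Agent.P8H94.GP

open MeasureTheory ProbabilityTheory Pool.Agent.P8H64.GP

theorem exists_factor {d : ℕ} {S : Matrix (Fin d) (Fin d) ℝ} (hS : S.PosSemidef) :
    ∃ U : Matrix (Fin d) (Fin S.rank) ℝ, ∀ i j, S i j = ∑ k, U i k * U j k := by
  classical
  have hA := hS.isHermitian
  have hcard := hA.rank_eq_card_non_zero_eigs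
  obtain ⟨e⟩ : Nonempty (Fin S.rank ≃ {i // hA.eigenvalues i ≠ 0}) :=
    ⟨(Fintype.equivFinOfCardEq hcard.symm).symm⟩
  obtain ⟨P, hP⟩ : ∃ P : Matrix (Fin d) (Fin d) ℝ, P = (hA.eigenvectorUnitary : Matrix (Fin d) (Fin d) ℝ) := ⟨_, rfl⟩
  have hsp : ∀ i j, S i j = ∑ m, P i m * hA.eigenvalues m * P j m := by
    intro i j
    conv_lhs => rw [hA.spectral_theorem, Unitary.conjStarAlgAut_apply, ← hP]
    rw [Matrix.mul_apply]
    refine Finset.sum_congr rfl fun m _ => ?_
    rw [Matrix.mul_diagonal, Matrix.star_apply]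
    simp
  refine ⟨Matrix.of fun i k => P i (e k) * √(hA.eigenvalues (e k)), fun i j => ?_⟩
  rw [hsp]
  have h2 : ∑ m, P i m * hA.eigenvalues m * P j m =
      ∑ m : {i // hA.eigenvalues i ≠ 0}, P i m * hA.eigenvalues m * P j m := by
    rw [← Finset.sum_subtype (Finset.univ.filter (fun i => hA.eigenvalues i ≠ 0)) (by simp)
      (fun m => P i m * hA.eigenvalues m * P j m), Finset.sum_filter]
    refine Finset.sum_congr rfl fun m _ => ?_
    split_ifs with h
    · rfl
    · rw [not_not.1 h]; ring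
  rw [h2, ← e.sum_comp]
  refine Finset.sum_congr rfl fun k _ => ?_
  have h3 := Real.mul_self_sqrt (hS.eigenvalues_nonneg (e k))
  calc P i (e k) * hA.eigenvalues (e k) * P j (e k) = P i (e k) * (√(hA.eigenvalues (e k)) * √(hA.eigenvalues (e k))) * P j (e k) := by rw [h3]
    _ = _ := by rw [Matrix.of_apply, Matrix.of_apply]; ring

theorem cov_quad {d : ℕ} (μ : Measure (Fin d → ℝ)) [IsGaussian μ] (c : Fin d → ℝ) :
    ∫ x, (∑ i, c i * x i) ^ 2 ∂μ = ∑ i, ∑ j, c i * c j * ∫ x, x i * x j ∂μ := by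
  have hint : ∀ i j, Integrable (fun x : Fin d → ℝ => x i * x j) μ := by
    intro i j
    have h1 := IsGaussian.memLp_dual μ (ContinuousLinearMap.proj (R := ℝ) (φ := fun _ : Fin d => ℝ) i) 2 (by norm_num)
    have h2 := IsGaussian.memLp_dual μ (ContinuousLinearMap.proj (R := ℝ) (φ := fun _ : Fin d => ℝ) j) 2 (by norm_num)
    exact h1.integrable_mul h2
  have h1 : ∀ x : Fin d → ℝ, (∑ i, c i * x i) ^ 2 = ∑ i, ∑ j, c i * c j * (x i * x j) := by
    intro x
    rw [pow_two, Finset.sum_mul_sum]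
    refine Finset.sum_congr rfl fun i _ => Finset.sum_congr rfl fun j _ => ?_
    ring
  simp_rw [h1]
  rw [integral_finsetSum _ (fun i _ => integrable_finsetSum _ fun j _ => (hint i j).const_mul _)]
  refine Finset.sum_congr rfl fun i _ => ?_
  rw [integral_finsetSum _ (fun j _ => (hint i j).const_mul _)]
  refine Finset.sum_congr rfl fun j _ => ?_
  rw [integral_const_mul]

theorem cov_psd {d : ℕ} (μ : Measure (Fin d → ℝ)) [IsGaussian μ] :
    (Matrix.of fun i j : Fin d => ∫ x, x i * x j ∂μ).PosSemidef := by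
  refine Matrix.PosSemidef.of_dotProduct_mulVec_nonneg ?_ fun c => ?_
  · ext i j
    rw [Matrix.conjTranspose_apply, Matrix.of_apply, Matrix.of_apply]
    simp only [star_trivial]
    congr 1
    ext x
    ring
  · have h := cov_quad μ c
    have h2 : 0 ≤ ∫ x, (∑ i, c i * x i) ^ 2 ∂μ := integral_nonneg fun x => sq_nonneg _
    rw [h] at h2
    refine h2.trans (le_of_eq ?_)
    rw [dotProduct]
    refine Finset.sum_congr rfl fun i _ => ?_
    rw [Matrix.mulVec, dotProduct, Finset.mul_sum]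
    refine Finset.sum_congr rfl fun j _ => ?_
    rw [Matrix.of_apply]
    simp
    ring

theorem rep : S_REP := by
  classical
  intro d μ hμ h0
  obtain ⟨U, hU⟩ := exists_factor (cov_psd μ)
  refine ⟨U, ?_⟩
  obtain ⟨r, hr⟩ : ∃ r, r = (Matrix.of fun i j : Fin d => ∫ x, x i * x j ∂μ).rank := ⟨_, rfl⟩
  obtain ⟨A, hA⟩ : ∃ A : (Fin (Matrix.of fun i j : Fin d => ∫ x, x i * x j ∂μ).rank → ℝ) →L[ℝ] (Fin d → ℝ),
    A = (Matrix.mulVecLin U).toContinuousLinearMap := ⟨_, rfl⟩
  have hAU : (fun w => U.mulVec w) = A := by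
    rw [hA]; rfl
  rw [hAU]
  have : IsProbabilityMeasure ((gr (Matrix.of fun i j : Fin d => ∫ x, x i * x j ∂μ).rank).map A) :=
    Measure.isProbabilityMeasure_map (by fun_prop)
  apply Measure.ext_of_charFunDual
  ext L
  have hL : ∀ x : Fin d → ℝ, L x = ∑ i, L (Pi.single i 1) * x i := by
    intro x
    have h1 : x = ∑ i, x i • (Pi.single i (1 : ℝ) : Fin d → ℝ) := by
      ext j
      simp [Finset.sum_apply, Pi.single_apply]
    conv_lhs => rw [h1]
    rw [map_sum]
    refine Finset.sum_congr rfl fun i _ => ?_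
    rw [map_smul, smul_eq_mul, mul_comm]
  rw [IsGaussian.charFunDual_eq_of_integral_eq_zero h0, charFunDual_map, charFunDual_pi]
  have hvar : Var[L; μ] = ∑ k, (∑ i, L (Pi.single i 1) * U i k) ^ 2 := by
    have hm : μ[L] = 0 := by rw [IsGaussian.integral_dual, h0, map_zero]
    rw [variance_of_integral_eq_zero (by fun_prop) hm]
    obtain ⟨c, hc⟩ : ∃ c : Fin d → ℝ, c = fun i => L (Pi.single i 1) := ⟨_, rfl⟩
    have h2 : ∀ x : Fin d → ℝ, L x ^ 2 = (∑ i, c i * x i) ^ 2 := fun x => by rw [hL x, hc]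
    rw [integral_congr_ae (Filter.Eventually.of_forall h2), cov_quad]
    have h1 : ∀ i j, ∫ x, x i * x j ∂μ = ∑ k, U i k * U j k := fun i j => by
      rw [← hU i j, Matrix.of_apply]
    have h3 : ∀ i, L (Pi.single i 1) = c i := fun i => by rw [hc]
    simp_rw [h1, h3, pow_two, Finset.sum_mul_sum, Finset.mul_sum]
    rw [Finset.sum_comm]
    conv_rhs => rw [Finset.sum_comm]
    rw [Finset.sum_comm]
    refine Finset.sum_congr rfl fun i _ => ?_
    rw [Finset.sum_comm]
    refine Finset.sum_congr rfl fun k _ => Finset.sum_congr rfl fun j _ => ?_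
    ring
  rw [hvar]
  have hc : ∀ k, charFunDual (gaussianReal 0 1) ((L.comp A).comp (.single ℝ (fun _ => ℝ) k)) =
      Complex.exp (-((∑ i, L (Pi.single i 1) * U i k : ℝ) : ℂ) ^ 2 / 2) := by
    intro k
    obtain ⟨T, hT⟩ : ∃ T : StrongDual ℝ ℝ, T = (L.comp A).comp (.single ℝ (fun _ => ℝ) k) := ⟨_, rfl⟩
    have hT1 : T 1 = ∑ i, L (Pi.single i 1) * U i k := by
      rw [hT]
      have h4 : A (Pi.single k 1) = fun i => U i k := by
        rw [hA]
        ext i
        simp
      rw [ContinuousLinearMap.comp_apply, ContinuousLinearMap.comp_apply]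
      have h5 : (ContinuousLinearMap.single ℝ (fun _ => ℝ) k) (1 : ℝ) = Pi.single k (1 : ℝ) := rfl
      rw [h5, h4, hL]
    have hTv : ∀ v : ℝ, T v = T 1 * v := by
      intro v
      have : T v = T (v • (1 : ℝ)) := by rw [smul_eq_mul, mul_one]
      rw [this, map_smul, smul_eq_mul, mul_comm]
    rw [← hT, ← hT1, charFunDual_apply]
    have h6 := charFun_gaussianReal (μ := 0) (v := 1) (T 1)
    rw [charFun_apply_real] at h6
    have h7 : ∀ v : ℝ, Complex.exp ((T v : ℂ) * Complex.I) = Complex.exp ((T 1 : ℂ) * v * Complex.I) := by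
      intro v
      rw [hTv v]
      push_cast
      rfl
    simp_rw [h7]
    rw [h6]
    congr 1
    push_cast
    simp
    ring
  rw [Finset.prod_congr rfl (fun k _ => hc k), ← Complex.exp_sum]
  congr 1
  push_cast
  rw [← Finset.sum_div, Finset.sum_neg_distrib]

end Pool.Agent.P8H94.GP
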