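import Pool.Agent.P8H64.GP.Stm3

/-!
# Package UNIB of project GP: the choice of the scaling factor
-/

set_option autoImplicit false

namespace Pool.Agent.P8H94.GP

open Pool.Agent.P8H64.GP

theorem unib : S_UNIB := by
  intro A hA
  refine ⟨8 * A, by linarith, fun c τ r s hc hc1 hτ hr h => ?_⟩
  have hr0 : (0 : ℝ) < r := by exact_mod_cast (by omega : 0 < r)
  have hs : 0 < s := by
    by_contra hs
    push Not at hs
    have h1 : 0 < 8 * A * τ * r := by positivity
    have h2 : c ^ 2 * s ≤ 0 := mul_nonpos_of_nonneg_of_nonpos (by positivity) hs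
    linarith
  obtain ⟨w, hw⟩ : ∃ w, w = s / r := ⟨_, rfl⟩
  have hw0 : 0 < w := by rw [hw]; positivity
  have hsw : s = w * r := by rw [hw]; field_simp
  have hτw : A * τ ≤ c ^ 2 * w / 8 := by
    rw [hsw] at h
    have h1 : (8 * A * τ) * r ≤ (c ^ 2 * w) * r := by linarith
    have h2 := le_of_mul_le_mul_right h1 hr0
    linarith
  have hAτ : 0 < A * τ := by positivity
  have H : ∃ x : ℝ, 0 < x ∧
      Real.log (1 + A * τ) ≤ Real.log (1 + c * x) - (x - Real.log (1 + x)) / (2 * w) := by
    rcases le_or_gt (c * w) 1 with hcw | hcw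
    · refine ⟨c * w / 2, by positivity, ?_⟩
      have hx0 : 0 < c * w := by positivity
      obtain ⟨u, hu⟩ : ∃ u, u = c ^ 2 * w := ⟨_, rfl⟩
      have hu0 : 0 < u := by rw [hu]; positivity
      have hu1 : u ≤ 1 := by
        rw [hu]
        nlinarith
      have h1 : c * (c * w / 2) = u / 2 := by rw [hu]; ring
      rw [h1]
      have h2 : u / 3 ≤ Real.log (1 + u / 2) := by
        have h3 := Real.one_sub_inv_le_log_of_pos (show 0 < 1 + u / 2 by linarith)
        have h4 : u / 3 ≤ 1 - (1 + u / 2)⁻¹ := by
          have h5 : 1 - (1 + u / 2)⁻¹ = (u / 2) / (1 + u / 2) := by field_simp; ring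
          rw [h5, div_le_div_iff₀ (by norm_num) (by linarith)]
          nlinarith
        linarith
      obtain ⟨v, hv⟩ : ∃ v, v = c * w / 2 := ⟨_, rfl⟩
      have hv0 : 0 < v := by rw [hv]; positivity
      rw [← hv]
      have h3 : v - Real.log (1 + v) ≤ v ^ 2 := by
        have h4 := Real.one_sub_inv_le_log_of_pos (show 0 < 1 + v by linarith)
        have h5 : v - v ^ 2 ≤ 1 - (1 + v)⁻¹ := by
          have h6 : 1 - (1 + v)⁻¹ = v / (1 + v) := by field_simp; ring
          rw [h6, le_div_iff₀ (by linarith)]
          nlinarith [pow_pos hv0 3]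
        linarith
      have h4 : (v - Real.log (1 + v)) / (2 * w) ≤ u / 8 := by
        rw [div_le_iff₀ (by positivity)]
        have : u / 8 * (2 * w) = v ^ 2 := by rw [hu, hv]; ring
        rw [this]
        exact h3
      have h5 : Real.log (1 + A * τ) ≤ A * τ := by
        have := Real.log_le_sub_one_of_pos (show 0 < 1 + A * τ by linarith)
        linarith
      rw [← hu] at hτw
      linarith
    · refine ⟨w, hw0, ?_⟩
      have h1 : 0 ≤ Real.log (1 + w) := Real.log_nonneg (by linarith)
      have h2 : (w - Real.log (1 + w)) / (2 * w) ≤ 1 / 2 := by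
        rw [div_le_iff₀ (by positivity)]
        linarith
      have h3 : Real.log (1 + A * τ) ≤ Real.log (1 + c * w / 8) := by
        apply Real.log_le_log (by linarith)
        have : c ^ 2 * w ≤ c * w := by
          have : c ^ 2 ≤ c := by nlinarith
          exact mul_le_mul_of_nonneg_right this hw0.le
        linarith
      have h4 : Real.log (1 + c * w / 8) + 1 / 2 ≤ Real.log (1 + c * w) := by
        have h5 : (1 / 2 : ℝ) = Real.log (Real.exp (1 / 2)) := by rw [Real.log_exp]
        rw [h5, ← Real.log_mul (by positivity) (Real.exp_pos _).ne']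
        apply Real.log_le_log (by positivity)
        have h6 : Real.exp (1 / 2) ≤ 1.65 := by
          have h7 : Real.exp (1 / 2) ^ 2 = Real.exp 1 := by
            rw [← Real.exp_nat_mul]
            norm_num
          have h8 := Real.exp_one_lt_d9
          have h9 : Real.exp (1 / 2) ^ 2 ≤ 1.65 ^ 2 := by
            rw [h7]
            norm_num
            linarith
          exact le_of_sq_le_sq h9 (by norm_num)
        have h10 : (1 + c * w / 8) * Real.exp (1 / 2) ≤ (1 + c * w / 8) * 1.65 :=
          mul_le_mul_of_nonneg_left h6 (by positivity)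
        norm_num at h10 ⊢
        linarith
      linarith
  obtain ⟨x, hx, h1⟩ := H
  refine ⟨√(1 + x), ?_, ?_⟩
  · rw [Real.lt_sqrt (by norm_num)]
    linarith
  · rw [Real.sq_sqrt (by linarith), Real.log_sqrt (by linarith)]
    have h2 := mul_le_mul_of_nonneg_left h1 hs.le
    have h3 : s * (Real.log (1 + c * x) - (x - Real.log (1 + x)) / (2 * w)) =
        s * Real.log (1 + c * x) - (x - Real.log (1 + x)) / 2 * r := by
      rw [hsw]
      field_simp
    rw [h3] at h2
    have h4 : 1 + x - 1 = x := by ring
    rw [h4]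
    linarith

end Pool.Agent.P8H94.GP
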